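import Pool.Agent.GT.StmtsD

/-!
# Row D_LOC: the valuations of the components
-/

set_option autoImplicit false

namespace Pool.Agent.GT.D.H81

open Pool.Agent.GT.D

variable {ι : Type} [Fintype ι] [DecidableEq ι]

/-- a prime which does not divide the differences of the roots -/
theorem ndvd {a : Fin 3 → ℤ} {s : ℤ} {r : ℕ} {bl : ι → Fin 3} {m st : ι → ℕ} {p : ι → ℕ}
    (hs : s = 1 ∨ s = -1) (hr : r.Prime) (hp : ∀ l, (p l).Prime) {q : ℕ} (hq : q.Prime)
    (hq2 : q ≠ 2) (hqr : q ≠ r) (hqp : ∀ l, q ≠ p l) {j : Fin 3} (hj : ¬ (q : ℤ) ∣ a j) :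
    ¬ (q : ℤ) ∣ Kn s r st p * Bn a bl m p j := by
  have hqi : Prime (q : ℤ) := Nat.prime_iff_prime_int.mp hq
  have hpow : ∀ (l : ι) (k : ℕ), ¬ (q : ℤ) ∣ (p l : ℤ) ^ k := by
    intro l k h
    have h1 := hqi.dvd_of_dvd_pow h
    have h2 : q ∣ p l := by exact_mod_cast h1
    exact hqp l ((Nat.prime_dvd_prime_iff_eq hq (hp l)).mp h2)
  intro h
  rcases hqi.dvd_or_dvd h with h | h
  · unfold Kn at h
    rcases hqi.dvd_or_dvd h with h | h
    · rcases hqi.dvd_or_dvd h with h | h
      · rcases hqi.dvd_or_dvd h with h | h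
        · have h1 : q ∣ 2 := by exact_mod_cast h
          exact hq2 ((Nat.prime_dvd_prime_iff_eq hq Nat.prime_two).mp h1)
        · rcases hs with rfl | rfl
          · exact hqi.not_unit (isUnit_of_dvd_one h)
          · exact hqi.not_unit (isUnit_of_dvd_one (by rwa [dvd_neg] at h))
      · have h1 : q ∣ r := by exact_mod_cast h
        exact hqr ((Nat.prime_dvd_prime_iff_eq hq hr).mp h1)
    · obtain ⟨l, _, hl⟩ := (Prime.dvd_finset_prod_iff hqi _).mp h
      exact hpow l _ hl
  · unfold Bn at h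
    rcases hqi.dvd_or_dvd h with h | h
    · exact hj h
    · obtain ⟨l, _, hl⟩ := (Prime.dvd_finset_prod_iff hqi _).mp h
      split_ifs at hl
      · exact hpow l _ hl
      · exact hqi.not_unit (isUnit_of_dvd_one hl)

/-- the block of an old prime -/
theorem bq_spec {a : Fin 3 → ℤ} (ho : Old a) {q : ℕ} (hq : q.Prime)
    (hd : (q : ℤ) ∣ a 0 * a 1 * a 2) :
    (q : ℤ) ∣ a (bq a q) ∧ ∀ j, j ≠ bq a q → ¬ (q : ℤ) ∣ a j := by
  have hqi : Prime (q : ℤ) := Nat.prime_iff_prime_int.mp hq
  have h1 : (q : ℤ) ∣ a (bq a q) := by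
    unfold bq
    split_ifs with h0 h1
    · exact h0
    · exact h1
    · rcases hqi.dvd_or_dvd hd with h | h
      · rcases hqi.dvd_or_dvd h with h | h
        · exact absurd h h0
        · exact absurd h h1
      · exact h
  refine ⟨h1, fun j hj h => ?_⟩
  exact hqi.not_unit ((ho.cop j _ hj).isUnit_of_dvd' h h1)

theorem vl_prod (add : AddStmt) (val : ValStmt) {a : Fin 3 → ℤ} (ho : Old a) {q : ℕ}
    (hq : q.Prime) (hd : (q : ℤ) ∣ a 0 * a 1 * a 2) :
    vl q (a 0 * a 1 * a 2) = vl q (a (bq a q)) := by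
  obtain ⟨h1, h2⟩ := bq_spec ho hq hd
  have hA := add.1 q hq
  rw [hA.mul _ _ (mul_ne_zero (ho.ne 0) (ho.ne 1)) (ho.ne 2), hA.mul _ _ (ho.ne 0) (ho.ne 1)]
  have h3 : ∀ j, j ≠ bq a q → vl q (a j) = 0 := fun j hj => (val.1 q (a j) hq (h2 j hj)).1
  have hcases : bq a q = 0 ∨ bq a q = 1 ∨ bq a q = 2 := by
    unfold bq
    split_ifs
    · exact Or.inl rfl
    · exact Or.inr (Or.inl rfl)
    · exact Or.inr (Or.inr rfl)
  rcases hcases with h | h | h
  · rw [h] at h3 ⊢
    rw [h3 1 (by decide), h3 2 (by decide)]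
    ring
  · rw [h] at h3 ⊢
    rw [h3 0 (by decide), h3 2 (by decide)]
    ring
  · rw [h] at h3 ⊢
    rw [h3 0 (by decide), h3 1 (by decide)]
    ring

theorem d_loc (goo : GooStmt) (mlo : MloStmt) (mle : MleStmt) (rea : ReaStmt)
    (dff : ∀ (ι : Type) [Fintype ι] [DecidableEq ι], DffStmt ι) (add : AddStmt)
    (val : ValStmt) : ∀ (ι : Type) [Fintype ι] [DecidableEq ι], LocStmt ι := by
  intro ι _ _ a s r bl m st p h hP x w hT
  obtain ⟨ho, hc, hn⟩ := hP
  obtain ⟨d1, d2, d3, d4⟩ := dff ι a s r bl m st p h ⟨ho, hc, hn⟩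
  have hsub := fun i => rt_sub (K := Kn s r st p) (B := Bn a bl m p) hn.sum i
  have hre : re a s r bl m st p = rt (Kn s r st p) (Bn a bl m p) := rfl
  have ha0 : a 0 * a 1 * a 2 ≠ 0 := mul_ne_zero (mul_ne_zero (ho.ne 0) (ho.ne 1)) (ho.ne 2)
  -- old primes
  have hold : ∀ q ∈ S0 a ∪ S1 a, q.Prime ∧ q ≠ 2 ∧ (q : ℤ) ∣ a 0 * a 1 * a 2 := by
    intro q hq
    rw [Finset.mem_union] at hq
    have h1 : q ∈ (a 0 * a 1 * a 2).natAbs.primeFactors ∧ q ≠ 2 := by
      rcases hq with hq | hq
      · unfold S0 at hq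
        rw [Finset.mem_filter] at hq
        exact ⟨hq.1, hq.2.1⟩
      · unfold S1 at hq
        rw [Finset.mem_filter] at hq
        exact ⟨hq.1, hq.2.1⟩
    have h2 := Nat.dvd_of_mem_primeFactors h1.1
    exact ⟨Nat.prime_of_mem_primeFactors h1.1, h1.2, Int.natCast_dvd.mpr h2⟩
  have hnd : ∀ q ∈ S0 a ∪ S1 a, ∀ j, j ≠ bq a q →
      ¬ (q : ℤ) ∣ Kn s r st p * Bn a bl m p j := by
    intro q hq j hj
    obtain ⟨hqp, hq2, hqd⟩ := hold q hq
    obtain ⟨h1, h2⟩ := bq_spec ho hqp hqd
    refine ndvd hc.ss hc.pr hn.pr hqp hq2 ?_ ?_ (h2 j hj)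
    · rintro rfl
      exact hc.nd _ h1
    · rintro l rfl
      exact hn.nd l _ h1
  have hne1 : ∀ i : Fin 3, i + 1 ≠ i := by decide
  have hne2 : ∀ i : Fin 3, i + 2 ≠ i := by decide
  have hul : ∀ q ∈ S0 a ∪ S1 a, ∀ i : Fin 3, ul q (-(Kn s r st p * Bn a bl m p i)) =
      ul q (-(2 * s * r * a i)) := by
    intro q hq i
    obtain ⟨hqp, hq2, hqd⟩ := hold q hq
    have hA := add.2.1 q hqp hq2
    have h1 : (2 * s * r * a i : ℤ) ≠ 0 := by
      have hs0 : s ≠ 0 := by
        rcases hc.ss with h | h <;> rw [h] <;> norm_num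
      have hr0 : (r : ℤ) ≠ 0 := by exact_mod_cast hc.pr.ne_zero
      exact mul_ne_zero (mul_ne_zero (mul_ne_zero two_ne_zero hs0) hr0) (ho.ne i)
    have h2 : ∀ n : ℤ, -n = (-1) * n := fun n => by ring
    rw [h2 (Kn s r st p * Bn a bl m p i), h2 (2 * s * r * a i),
      hA.mul _ _ (by norm_num) (d3 i).2.2.1, hA.mul _ _ (by norm_num) h1, (d2 q hq i).2]
  refine ⟨?_, ?_, ?_, ?_⟩
  · intro q hq
    have hq' : q ∈ S0 a ∪ S1 a := Finset.mem_union_right _ hq
    obtain ⟨hqp, hq2, hqd⟩ := hold q hq'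
    have hv : vl q (a (bq a q)) = 1 := by
      rw [← vl_prod add val ho hqp hqd]
      unfold S1 at hq
      rw [Finset.mem_filter] at hq
      exact hq.2.2
    have h1 := mlo (re a s r bl m st p) x w q (bq a q) hT hqp hq2
      (by
        rw [hre, (hsub (bq a q)).1, dvd_neg]
        exact hnd q hq' _ (hne2 _))
      (by
        rw [hre, (hsub (bq a q)).2.1]
        exact hnd q hq' _ (hne1 _))
      (by
        rw [hre, (hsub (bq a q)).2.2, (d2 q hq' _).1, hv])
    refine ⟨h1.1, h1.2.1, ?_⟩
    rw [h1.2.2]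
    congr 1
    rw [hre, (hsub (bq a q)).1]
    exact hul q hq' _
  · intro q hq
    have hq' : q ∈ S0 a ∪ S1 a := Finset.mem_union_left _ hq
    obtain ⟨hqp, hq2, hqd⟩ := hold q hq'
    have hv : vl q (a (bq a q)) = 0 := by
      rw [← vl_prod add val ho hqp hqd]
      unfold S0 at hq
      rw [Finset.mem_filter] at hq
      exact hq.2.2
    have hdv : (q : ℤ) ∣ Kn s r st p * Bn a bl m p (bq a q) := by
      apply Dvd.dvd.mul_left
      unfold Bn
      exact Dvd.dvd.mul_right (bq_spec ho hqp hqd).1 _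
    exact mle (re a s r bl m st p) x w q (bq a q) hT hqp hq2
      (by
        rw [hre, (hsub (bq a q)).1, dvd_neg]
        exact hnd q hq' _ (hne2 _))
      (by
        rw [hre, (hsub (bq a q)).2.1]
        exact hnd q hq' _ (hne1 _))
      (by
        intro hE
        have h2 := (hsub (bq a q)).2.2
        rw [← hre, hE, sub_self] at h2
        exact (d3 (bq a q)).2.2.1 h2.symm)
      (by
        rw [hre, (hsub (bq a q)).2.2]
        exact hdv)
      (by
        rw [hre, (hsub (bq a q)).2.2, (d2 q hq' _).1, hv])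
      (by
        rw [hre, (hsub (bq a q)).1, hul q hq']
        exact hc.ev q hq)
  · intro q hqp hq2 hqr hqS hql i
    have hnda : ∀ j, ¬ (q : ℤ) ∣ a j := by
      intro j hj
      apply hqS
      have hdv : (q : ℤ) ∣ a 0 * a 1 * a 2 := by
        fin_cases j
        · exact Dvd.dvd.mul_right (Dvd.dvd.mul_right hj _) _
        · exact Dvd.dvd.mul_right (Dvd.dvd.mul_left hj _) _
        · exact Dvd.dvd.mul_left hj _
      have hmem : q ∈ (a 0 * a 1 * a 2).natAbs.primeFactors := by
        rw [Nat.mem_primeFactors]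
        exact ⟨hqp, Int.natCast_dvd.mp hdv, Int.natAbs_ne_zero.mpr ha0⟩
      have h01 : ∀ z : ZMod 2, z = 0 ∨ z = 1 := by decide
      rw [Finset.mem_union]
      rcases h01 (vl q (a 0 * a 1 * a 2)) with hz | hz
      · left
        unfold S0
        rw [Finset.mem_filter]
        exact ⟨hmem, hq2, hz⟩
      · right
        unfold S1
        rw [Finset.mem_filter]
        exact ⟨hmem, hq2, hz⟩
    have hKB : ∀ j, ¬ (q : ℤ) ∣ Kn s r st p * Bn a bl m p j := fun j =>
      ndvd hc.ss hc.pr hn.pr hqp hq2 hqr hql (hnda j)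
    refine goo (re a s r bl m st p) x w q hT hqp ?_ i
    have key : ∀ i : Fin 3, ¬ (q : ℤ) ∣ re a s r bl m st p (i + 1) - re a s r bl m st p i ∧
        ¬ (q : ℤ) ∣ re a s r bl m st p (i + 2) - re a s r bl m st p i := by
      intro i
      rw [hre, (hsub i).1, (hsub i).2.1, dvd_neg]
      exact ⟨hKB _, hKB _⟩
    intro i j hij
    have hcase : ∀ i j : Fin 3, i ≠ j → i = j + 1 ∨ i = j + 2 := by decide
    rcases hcase i j hij with hh | hh
    · rw [hh]
      exact (key j).1
    · rw [hh]
      exact (key j).2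
  · -- signs
    have hs0 : s * s = 1 := by
      rcases hc.ss with h | h <;> rw [h] <;> norm_num
    have hsum : Kn s r st p * Bn a bl m p 0 + Kn s r st p * Bn a bl m p 1 +
        Kn s r st p * Bn a bl m p 2 = 0 := by
      have := hn.sum
      linear_combination (Kn s r st p) * this
    have e0 : re a s r bl m st p 0 = 0 := rfl
    have e1 : re a s r bl m st p 1 = -(Kn s r st p * Bn a bl m p 2) := rfl
    have e2 : re a s r bl m st p 2 = Kn s r st p * Bn a bl m p 1 := rfl
    have p0 := (d3 0).2.2.2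
    have p1 := (d3 1).2.2.2
    have p2 := (d3 2).2.2.2
    have hre' := hc.re
    have hpos : ∀ u v : ℤ, 0 < u * v → 0 < v → 0 < u := fun u v h1 h2 =>
      (pos_iff_pos_of_mul_pos h1).mpr h2
    have hneg : ∀ u v : ℤ, 0 < u * v → v < 0 → u < 0 := fun u v h1 h2 =>
      (neg_iff_neg_of_mul_pos h1).mpr h2
    have hrmin : ∀ j, re a s r bl m st p (ra a s) ≤ re a s r bl m st p j := by
      by_cases h2 : s * a 2 < 0
      · have hr0 : ra a s = 0 := by
          unfold ra
          rw [if_pos h2]
        rw [hr0]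
        have q2 := hneg _ _ p2 h2
        have q1 : 0 < Kn s r st p * Bn a bl m p 1 := by
          rcases hre' with h | h
          · exact hpos _ _ p1 h
          · have q0 := hneg _ _ p0 h
            linarith
        intro j
        fin_cases j
        · exact le_refl _
        · show re a s r bl m st p 0 ≤ re a s r bl m st p 1
          rw [e0, e1]
          linarith
        · show re a s r bl m st p 0 ≤ re a s r bl m st p 2
          rw [e0, e2]
          linarith
      · have hr1 : ra a s = 1 := by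
          unfold ra
          rw [if_neg h2]
        rw [hr1]
        have h2' : 0 < s * a 2 := by
          rcases lt_or_eq_of_le (not_lt.mp h2) with h | h
          · exact h
          · exfalso
            have hs1 : s ≠ 0 := by
              rintro rfl
              norm_num at hs0
            exact mul_ne_zero hs1 (ho.ne 2) h.symm
        have q2 := hpos _ _ p2 h2'
        have q01 : 0 < Kn s r st p * Bn a bl m p 1 + Kn s r st p * Bn a bl m p 2 := by
          rcases hre' with h | h
          · have q1 := hpos _ _ p1 h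
            linarith
          · have q0 := hneg _ _ p0 h
            linarith
        intro j
        fin_cases j
        · show re a s r bl m st p 1 ≤ re a s r bl m st p 0
          rw [e0, e1]
          linarith
        · exact le_refl _
        · show re a s r bl m st p 1 ≤ re a s r bl m st p 2
          rw [e1, e2]
          linarith
    obtain ⟨f1, f2⟩ := rea (re a s r bl m st p) x w (ra a s) hT hrmin
    have hra : ra a s = 0 ∨ ra a s = 1 := by
      unfold ra
      split_ifs
      · exact Or.inl rfl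
      · exact Or.inr rfl
    intro i
    rcases hra with hr | hr
    · rw [hr] at f1 f2 ⊢
      fin_cases i
      · simpa using f1
      · show sg (Xc (re a s r bl m st p) x w 1) =
          if (1 : Fin 3) = 0 then 0 else sg (Xc (re a s r bl m st p) x w 2)
        rw [if_neg (by decide)]
        exact f2
      · show sg (Xc (re a s r bl m st p) x w 2) =
          if (2 : Fin 3) = 0 then 0 else sg (Xc (re a s r bl m st p) x w 2)
        rw [if_neg (by decide)]
    · rw [hr] at f1 f2 ⊢
      fin_cases i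
      · show sg (Xc (re a s r bl m st p) x w 0) =
          if (0 : Fin 3) = 1 then 0 else sg (Xc (re a s r bl m st p) x w 2)
        rw [if_neg (by decide)]
        exact f2.symm
      · simpa using f1
      · show sg (Xc (re a s r bl m st p) x w 2) =
          if (2 : Fin 3) = 1 then 0 else sg (Xc (re a s r bl m st p) x w 2)
        rw [if_neg (by decide)]

end Pool.Agent.GT.D.H81
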